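import Mathlib

namespace Pool.Agent.H.MP_814ec7_co

def T : List ℕ := [0, 1, 2, 3, 4, 5, 6, 0, 1, 0, 2, 3, 1, 4, 5, 0, 6, 0, 2, 3, 1, 0, 1, 4, 2, 3, 5, 0, 1, 4]

def off (u : ℕ) : ℕ := 2 * (u / 4) + [3, 0, 1, 4].getD (u % 4) 0

def y (n : ℕ) : ℕ := if h : n < 15 then T.getD n 0 else y (6 + off (n - 15))
decreasing_by
  unfold off
  have : (n - 15) % 4 < 4 := Nat.mod_lt _ (by norm_num)
  generalize hr : (n - 15) % 4 = r at this
  interval_cases r <;> simp <;> omega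

lemma off_lt (u : ℕ) : 6 + off u < 15 + u := by
  unfold off
  have : u % 4 < 4 := Nat.mod_lt _ (by norm_num)
  generalize hr : u % 4 = r at this
  interval_cases r <;> simp <;> omega

lemma y_big (m u : ℕ) : y (15 + 4 * m + u) = y (6 + 2 * m + off u) := by
  rw [y, dif_neg (by omega)]
  congr 1
  unfold off
  rw [show 15 + 4 * m + u - 15 = u + 4 * m by omega, Nat.add_mul_mod_self_left,
    Nat.add_mul_div_left _ _ (by norm_num)]
  ring

lemma y_T (n : ℕ) (hn : n < 30) : y n = T.getD n 0 := by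
  induction n using Nat.strong_induction_on with
  | _ n ih =>
    by_cases h : n < 15
    · rw [y, dif_pos h]
    · have h1 := off_lt (n - 15)
      rw [y, dif_neg h, ih _ (by omega) (by omega)]
      have : ∀ n < 30, ¬ n < 15 → T.getD (6 + off (n - 15)) 0 = T.getD n 0 := by decide +kernel
      exact this n hn h

lemma y_lt (n : ℕ) : y n < 7 := by
  induction n using Nat.strong_induction_on with
  | _ n ih =>
    by_cases h : n < 15
    · rw [y, dif_pos h]
      have : ∀ n < 15, T.getD n 0 < 7 := by decide +kernel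
      exact this n h
    · have h1 := off_lt (n - 15)
      rw [y, dif_neg h]
      exact ih _ (by omega)

def S : List (List ℕ) := [[6, 0, 1, 0, 2, 3, 1, 4, 5, 0, 6, 0],
  [1, 0, 2, 3, 1, 4, 5, 0, 6, 0, 2, 3],
  [2, 3, 1, 4, 5, 0, 6, 0, 2, 3, 1, 0],
  [1, 4, 5, 0, 6, 0, 2, 3, 1, 0, 1, 4],
  [5, 0, 6, 0, 2, 3, 1, 0, 1, 4, 2, 3],
  [6, 0, 2, 3, 1, 0, 1, 4, 2, 3, 5, 0],
  [2, 3, 1, 0, 1, 4, 2, 3, 5, 0, 1, 4],
  [1, 0, 1, 4, 2, 3, 5, 0, 1, 4, 6, 0],
  [1, 4, 2, 3, 5, 0, 1, 4, 6, 0, 5, 0],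
  [2, 3, 5, 0, 1, 4, 6, 0, 5, 0, 2, 3],
  [5, 0, 1, 4, 6, 0, 5, 0, 2, 3, 6, 0],
  [1, 4, 6, 0, 5, 0, 2, 3, 6, 0, 1, 0],
  [6, 0, 5, 0, 2, 3, 6, 0, 1, 0, 2, 3],
  [5, 0, 2, 3, 6, 0, 1, 0, 2, 3, 1, 4],
  [2, 3, 6, 0, 1, 0, 2, 3, 1, 4, 1, 0],
  [6, 0, 1, 0, 2, 3, 1, 4, 1, 0, 2, 3],
  [1, 0, 2, 3, 1, 4, 1, 0, 2, 3, 1, 4],
  [2, 3, 1, 4, 1, 0, 2, 3, 1, 4, 5, 0],
  [1, 4, 1, 0, 2, 3, 1, 4, 5, 0, 2, 3],
  [1, 0, 2, 3, 1, 4, 5, 0, 2, 3, 1, 4],
  [2, 3, 1, 4, 5, 0, 2, 3, 1, 4, 5, 0],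
  [1, 4, 5, 0, 2, 3, 1, 4, 5, 0, 6, 0],
  [5, 0, 2, 3, 1, 4, 5, 0, 6, 0, 1, 4],
  [2, 3, 1, 4, 5, 0, 6, 0, 1, 4, 5, 0],
  [1, 4, 5, 0, 6, 0, 1, 4, 5, 0, 6, 0],
  [5, 0, 6, 0, 1, 4, 5, 0, 6, 0, 2, 3],
  [6, 0, 1, 4, 5, 0, 6, 0, 2, 3, 5, 0],
  [1, 4, 5, 0, 6, 0, 2, 3, 5, 0, 6, 0],
  [5, 0, 6, 0, 2, 3, 5, 0, 6, 0, 2, 3],
  [6, 0, 2, 3, 5, 0, 6, 0, 2, 3, 1, 0],
  [2, 3, 5, 0, 6, 0, 2, 3, 1, 0, 6, 0],
  [5, 0, 6, 0, 2, 3, 1, 0, 6, 0, 2, 3],
  [6, 0, 2, 3, 1, 0, 6, 0, 2, 3, 1, 0],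
  [2, 3, 1, 0, 6, 0, 2, 3, 1, 0, 1, 4],
  [1, 0, 6, 0, 2, 3, 1, 0, 1, 4, 2, 3],
  [6, 0, 2, 3, 1, 0, 1, 4, 2, 3, 1, 0],
  [2, 3, 1, 0, 1, 4, 2, 3, 1, 0, 1, 4],
  [1, 0, 1, 4, 2, 3, 1, 0, 1, 4, 2, 3],
  [1, 4, 2, 3, 1, 0, 1, 4, 2, 3, 1, 0],
  [1, 4, 2, 3, 1, 0, 1, 4, 2, 3, 5, 0],
  [1, 0, 1, 4, 2, 3, 5, 0, 1, 4, 2, 3],
  [1, 4, 2, 3, 5, 0, 1, 4, 2, 3, 5, 0],
  [2, 3, 5, 0, 1, 4, 2, 3, 5, 0, 1, 4],
  [5, 0, 1, 4, 2, 3, 5, 0, 1, 4, 2, 3],
  [5, 0, 1, 4, 2, 3, 5, 0, 1, 4, 6, 0],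
  [2, 3, 5, 0, 1, 4, 6, 0, 5, 0, 1, 4],
  [5, 0, 1, 4, 6, 0, 5, 0, 1, 4, 6, 0],
  [1, 4, 6, 0, 5, 0, 1, 4, 6, 0, 5, 0],
  [6, 0, 5, 0, 1, 4, 6, 0, 5, 0, 1, 4],
  [6, 0, 5, 0, 1, 4, 6, 0, 5, 0, 2, 3],
  [1, 4, 6, 0, 5, 0, 2, 3, 6, 0, 5, 0],
  [6, 0, 5, 0, 2, 3, 6, 0, 5, 0, 2, 3],
  [5, 0, 2, 3, 6, 0, 5, 0, 2, 3, 6, 0],
  [2, 3, 6, 0, 5, 0, 2, 3, 6, 0, 5, 0],
  [2, 3, 6, 0, 5, 0, 2, 3, 6, 0, 1, 0],
  [5, 0, 2, 3, 6, 0, 1, 0, 2, 3, 6, 0],
  [2, 3, 6, 0, 1, 0, 2, 3, 6, 0, 1, 0],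
  [6, 0, 1, 0, 2, 3, 6, 0, 1, 0, 2, 3],
  [1, 0, 2, 3, 6, 0, 1, 0, 2, 3, 6, 0],
  [1, 0, 2, 3, 6, 0, 1, 0, 2, 3, 1, 4],
  [2, 3, 1, 4, 1, 0, 2, 3, 1, 4, 1, 0],
  [1, 4, 1, 0, 2, 3, 1, 4, 1, 0, 2, 3],
  [1, 4, 5, 0, 2, 3, 1, 4, 5, 0, 2, 3],
  [5, 0, 2, 3, 1, 4, 5, 0, 2, 3, 1, 4],
  [5, 0, 6, 0, 1, 4, 5, 0, 6, 0, 1, 4],
  [6, 0, 1, 4, 5, 0, 6, 0, 1, 4, 5, 0],
  [6, 0, 2, 3, 5, 0, 6, 0, 2, 3, 5, 0],
  [2, 3, 5, 0, 6, 0, 2, 3, 5, 0, 6, 0],
  [2, 3, 1, 0, 6, 0, 2, 3, 1, 0, 6, 0],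
  [1, 0, 6, 0, 2, 3, 1, 0, 6, 0, 2, 3]]

def win (p : ℕ) : List ℕ := (List.range 12).map fun t => y (p + t)

lemma win_get (p t : ℕ) (ht : t < 12) : (win p).getD t 0 = y (p + t) := by
  simp [win, List.getD_eq_getElem?_getD, ht]

def der (w : List ℕ) (r : ℕ) : List ℕ := (List.range 12).map fun t => w.getD (off (r + t)) 0

lemma off_le : ∀ u < 16, off u < 12 := by decide +kernel

lemma win_der (m r : ℕ) (hr : r < 4) : win (15 + 4 * m + r) = der (win (6 + 2 * m)) r := by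
  unfold der
  conv_lhs => unfold win
  apply List.map_congr_left
  intro t ht
  have := List.mem_range.1 ht
  rw [win_get _ _ (off_le _ (by omega)), add_assoc, y_big]

lemma closed : ∀ w ∈ S, ∀ r < 4, r % 2 = 1 → der w r ∈ S := by decide +kernel

lemma win_mem (p : ℕ) (hp : 6 ≤ p) (he : p % 2 = 0) : win p ∈ S := by
  induction p using Nat.strong_induction_on with
  | _ p ih =>
    by_cases h : p < 15
    · have h1 : win p = (List.range 12).map fun t => T.getD (p + t) 0 := by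
        apply List.map_congr_left
        intro t ht
        have := List.mem_range.1 ht
        exact y_T _ (by omega)
      have : ∀ p < 15, 6 ≤ p → p % 2 = 0 → ((List.range 12).map fun t => T.getD (p + t) 0) ∈ S := by
        decide +kernel
      rw [h1]; exact this p h hp he
    · obtain ⟨m, r, hr, rfl⟩ : ∃ m r, r < 4 ∧ p = 15 + 4 * m + r :=
        ⟨(p - 15) / 4, (p - 15) % 4, Nat.mod_lt _ (by norm_num), by omega⟩
      rw [win_der m r hr]
      exact closed _ (ih _ (by omega) (by omega) (by omega)) r hr (by omega)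

def surv (a b c : ℕ → ℕ) : ℕ → ℕ → ℕ → Bool
  | 0, _, _ => true
  | f + 1, u, v => (Nat.beq (a u) (c (u + v)) && surv a b c f (u + 1) v) ||
      (Nat.beq (b v) (c (u + v)) && surv a b c f u (v + 1))

def dev (a b c : ℕ → ℕ) (e : Bool) : Bool :=
  if e then Nat.beq (a 0) (c 0) && surv a b c 7 1 0 else Nat.beq (b 0) (c 0) && surv a b c 7 0 1

def cI (s : ℕ → Bool) (n : ℕ) : ℕ := Nat.count (fun k => s k = true) n
def cJ (s : ℕ → Bool) (n : ℕ) : ℕ := Nat.count (fun k => s k = false) n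

def Loc (s : ℕ → Bool) : Prop := ∀ n, (s n = true → y n = y (cI s n)) ∧ (s n = false → y n = y (cJ s n))

lemma cI_succ (s : ℕ → Bool) (n : ℕ) : cI s (n + 1) = cI s n + if s n = true then 1 else 0 :=
  Nat.count_succ _ _

lemma cJ_succ (s : ℕ → Bool) (n : ℕ) : cJ s (n + 1) = cJ s n + if s n = false then 1 else 0 :=
  Nat.count_succ _ _

lemma cIJ (s : ℕ → Bool) (n : ℕ) : cI s n + cJ s n = n := by
  induction n with
  | zero => rfl
  | succ n ih => rw [cI_succ, cJ_succ]; cases s n <;> simp <;> omega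

lemma surv_true {s : ℕ → Bool} (hs : Loc s) (n : ℕ) (a b c : ℕ → ℕ)
    (ha : ∀ t < 8, a t = y (cI s n + t)) (hb : ∀ t < 8, b t = y (cJ s n + t))
    (hc : ∀ t < 8, c t = y (n + t)) (f : ℕ) : ∀ u v, u + v + f ≤ 8 →
    cI s (n + (u + v)) = cI s n + u → cJ s (n + (u + v)) = cJ s n + v → surv a b c f u v = true := by
  induction f with
  | zero => intro u v _ _ _; rfl
  | succ f ih =>
    intro u v h h1 h2
    rw [surv, ha u (by omega), hb v (by omega), hc (u + v) (by omega)]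
    have e1 := cI_succ s (n + (u + v))
    have e2 := cJ_succ s (n + (u + v))
    cases hx : s (n + (u + v))
    · simp only [hx, Bool.false_eq_true, if_false, if_true] at e1 e2
      rw [(hs _).2 hx, h2, ih u (v + 1) (by omega) (by rw [← add_assoc u, ← add_assoc]; omega)
        (by rw [← add_assoc u, ← add_assoc]; omega)]
      simp
    · simp only [hx, Bool.true_eq_false, if_false, if_true] at e1 e2
      rw [(hs _).1 hx, h1, ih (u + 1) v (by omega)
        (by rw [show n + (u + 1 + v) = n + (u + v) + 1 by ring]; omega)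
        (by rw [show n + (u + 1 + v) = n + (u + v) + 1 by ring]; omega)]
      simp

lemma dev_true {s : ℕ → Bool} (hs : Loc s) (n : ℕ) (a b c : ℕ → ℕ)
    (ha : ∀ t < 8, a t = y (cI s n + t)) (hb : ∀ t < 8, b t = y (cJ s n + t))
    (hc : ∀ t < 8, c t = y (n + t)) : dev a b c (s n) = true := by
  have e1 := cI_succ s n
  have e2 := cJ_succ s n
  unfold dev
  rw [ha 0 (by omega), hb 0 (by omega), hc 0 (by omega)]
  cases hx : s n
  · simp only [hx, Bool.false_eq_true, if_false, if_true] at e1 e2 ⊢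
    rw [surv_true hs n a b c ha hb hc 7 0 1 (by omega) (by simpa using e1) (by simpa using e2)]
    simp [(hs n).2 hx]
  · simp only [hx, Bool.true_eq_false, if_false, if_true] at e1 e2 ⊢
    rw [surv_true hs n a b c ha hb hc 7 1 0 (by omega) (by simpa using e1) (by simpa using e2)]
    simp [(hs n).1 hx]

def s0 (n : ℕ) : Bool := if n < 15 then [true, true, true, true, true, true, true, false, false, true, false, false, true, false, false].getD n true
  else [true, false, false, true].getD ((n - 15) % 4) true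

def J0 (n : ℕ) : ℕ := if n < 15 then [0, 0, 0, 0, 0, 0, 0, 0, 1, 2, 2, 3, 4, 4, 5].getD n 0
  else 6 + 2 * ((n - 15) / 4) + [0, 0, 1, 2].getD ((n - 15) % 4) 0

lemma s0_big (m r : ℕ) (hr : r < 4) : s0 (15 + 4 * m + r) = [true, false, false, true].getD r true := by
  rw [s0, if_neg (by omega), show (15 + 4 * m + r - 15) % 4 = r by omega]

lemma J0_big (m r : ℕ) (hr : r < 4) : J0 (15 + 4 * m + r) = 6 + 2 * m + [0, 0, 1, 2].getD r 0 := by
  rw [J0, if_neg (by omega), show (15 + 4 * m + r - 15) % 4 = r by omega,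
    show (15 + 4 * m + r - 15) / 4 = m by omega]

lemma split (p : ℕ) (h : ¬ p < 15) : ∃ m r, r < 4 ∧ p = 15 + 4 * m + r :=
  ⟨(p - 15) / 4, (p - 15) % 4, Nat.mod_lt _ (by norm_num), by omega⟩

lemma J0_succ (n : ℕ) : J0 (n + 1) = J0 n + if s0 n = false then 1 else 0 := by
  by_cases h : n < 15
  · have : ∀ n < 15, J0 (n + 1) = J0 n + if s0 n = false then 1 else 0 := by decide +kernel
    exact this n h
  · obtain ⟨m, r, hr, rfl⟩ := split n h
    rw [s0_big m r hr, J0_big m r hr]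
    interval_cases r
    · rw [add_assoc, J0_big m _ (by omega)]; simp
    · rw [add_assoc, J0_big m _ (by omega)]; simp
    · rw [add_assoc, J0_big m _ (by omega)]; simp
    · rw [show 15 + 4 * m + 3 + 1 = 15 + 4 * (m + 1) + 0 by ring, J0_big _ _ (by omega)]
      simp; ring

lemma cJ_s0 (n : ℕ) : cJ s0 n = J0 n := by
  induction n with
  | zero => rfl
  | succ n ih => rw [cJ_succ, J0_succ, ih]

lemma loc_s0 : Loc s0 := by
  intro n
  have e := cIJ s0 n
  rw [cJ_s0] at e ⊢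
  rw [show cI s0 n = n - J0 n by omega]
  by_cases h : n < 15
  · have : ∀ n < 15, (s0 n = true → T.getD n 0 = T.getD (n - J0 n) 0) ∧
        (s0 n = false → T.getD n 0 = T.getD (J0 n) 0) := by decide +kernel
    rw [y_T _ (by omega), y_T _ (by omega), y_T _ (by omega)]
    exact this n h
  · obtain ⟨m, r, hr, rfl⟩ := split n h
    rw [s0_big m r hr, J0_big m r hr, y_big]
    interval_cases r <;> simp [off] <;> congr 1 <;> omega

lemma axis {s : ℕ → Bool} (hs : Loc s) (n : ℕ) (h1 : 1 ≤ n) (h7 : n ≠ 7) (hj : cJ s n = 0) :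
    s n = true := by
  have e := cIJ s n
  by_contra hc
  have hx : s n = false := by simpa using hc
  by_cases h : n < 15
  · have := dev_true hs n (fun t => T.getD (n + t) 0) (fun t => T.getD t 0)
      (fun t => T.getD (n + t) 0)
      (fun t ht => by rw [y_T _ (by omega)]; congr 1; omega)
      (fun t ht => by rw [y_T _ (by omega)]; congr 1; omega)
      (fun t ht => by rw [y_T _ (by omega)])
    have h2 : ∀ n < 15, 1 ≤ n → n ≠ 7 → dev (fun t => T.getD (n + t) 0) (fun t => T.getD t 0)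
      (fun t => T.getD (n + t) 0) false = false := by decide +kernel
    rw [hx, h2 n h h1 h7] at this
    exact absurd this (by decide)
  · obtain ⟨m, r, hr, rfl⟩ := split n h
    have := dev_true hs (15 + 4 * m + r) (fun t => (der (win (6 + 2 * m)) r).getD t 0) (fun t => T.getD t 0)
      (fun t => (der (win (6 + 2 * m)) r).getD t 0)
      (fun t ht => by rw [← win_der m r hr, win_get _ _ (by omega)]; congr 1; omega)
      (fun t ht => by rw [y_T _ (by omega)]; congr 1; omega)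
      (fun t ht => by rw [← win_der m r hr, win_get _ _ (by omega)])
    have h2 : ∀ w ∈ S, ∀ r < 4, dev (fun t => (der w r).getD t 0) (fun t => T.getD t 0)
      (fun t => (der w r).getD t 0) false = false := by decide +kernel
    rw [hx, h2 _ (win_mem _ (by omega) (by omega)) r hr] at this
    exact absurd this (by decide)

lemma onmain {s : ℕ → Bool} (hs : Loc s) (n : ℕ) (h8 : 8 ≤ n) (hj : cJ s n = J0 n) :
    s n = s0 n := by
  have e := cIJ s n
  by_contra hc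
  have hx : s n = !(s0 n) := by cases h1 : s n <;> cases h2 : s0 n <;> simp_all
  by_cases h : n < 15
  · have := dev_true hs n (fun t => T.getD (n - J0 n + t) 0) (fun t => T.getD (J0 n + t) 0)
      (fun t => T.getD (n + t) 0)
      (fun t ht => by rw [y_T _ (by omega)]; congr 1; omega)
      (fun t ht => by rw [y_T _ (by omega)]; congr 1; omega)
      (fun t ht => by rw [y_T _ (by omega)])
    have h2 : ∀ n < 15, 8 ≤ n → dev (fun t => T.getD (n - J0 n + t) 0)
      (fun t => T.getD (J0 n + t) 0) (fun t => T.getD (n + t) 0) (!(s0 n)) = false := by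
      decide +kernel
    rw [hx, h2 n h h8] at this
    exact absurd this (by decide)
  · obtain ⟨m, r, hr, rfl⟩ := split n h
    rw [J0_big m r hr] at hj
    rw [s0_big m r hr] at hx
    have := dev_true hs (15 + 4 * m + r) (fun t => (win (6 + 2 * m)).getD (3 + [0, 1, 1, 1].getD r 0 + t) 0)
      (fun t => (win (6 + 2 * m)).getD ([0, 0, 1, 2].getD r 0 + t) 0)
      (fun t => (der (win (6 + 2 * m)) r).getD t 0)
      (fun t ht => by
        rw [win_get _ _ (by interval_cases r <;> simp <;> omega)]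
        congr 1
        rw [show cI s (15 + 4 * m + r) = 15 + 4 * m + r - cJ s (15 + 4 * m + r) by omega, hj]
        interval_cases r <;> simp <;> omega)
      (fun t ht => by
        rw [win_get _ _ (by interval_cases r <;> simp <;> omega), hj, ← add_assoc])
      (fun t ht => by rw [← win_der m r hr, win_get _ _ (by omega)])
    have h2 : ∀ w ∈ S, ∀ r < 4, dev (fun t => w.getD (3 + [0, 1, 1, 1].getD r 0 + t) 0)
      (fun t => w.getD ([0, 0, 1, 2].getD r 0 + t) 0) (fun t => (der w r).getD t 0)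
      (!([true, false, false, true].getD r true)) = false := by decide +kernel
    rw [hx, h2 _ (win_mem _ (by omega) (by omega)) r hr] at this
    exact absurd this (by decide)

lemma uniq {s : ℕ → Bool} (hs : Loc s) (h0 : s 0 = true) (hinf : {n | s n = false}.Infinite) :
    s = s0 := by
  have h7 : ∀ n ≤ 7, cJ s n = 0 ∧ (n < 7 → s n = true) := by
    intro n
    induction n with
    | zero => intro _; exact ⟨rfl, fun _ => h0⟩
    | succ n ih =>
      intro hn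
      obtain ⟨a, b⟩ := ih (by omega)
      have c : cJ s (n + 1) = 0 := by rw [cJ_succ, a, b (by omega)]; simp
      exact ⟨c, fun h => axis hs _ (by omega) (by omega) c⟩
  have hs7 : s 7 = false := by
    by_contra hc
    have hx : s 7 = true := by simpa using hc
    have hz : ∀ n, 8 ≤ n → cJ s n = 0 := by
      intro n hn
      induction n, hn using Nat.le_induction with
      | base => rw [cJ_succ, (h7 7 le_rfl).1, hx]; simp
      | succ n hn ih => rw [cJ_succ, ih, axis hs n (by omega) (by omega) ih]; simp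
    obtain ⟨n, hn, hn2⟩ := hinf.exists_gt 8
    have := axis hs n (by omega) (by omega) (hz n (by omega))
    simp only [Set.mem_ofPred_eq] at hn
    rw [hn] at this
    exact absurd this (by decide)
  have hm : ∀ n, 8 ≤ n → cJ s n = J0 n := by
    intro n hn
    induction n, hn using Nat.le_induction with
    | base => rw [cJ_succ, (h7 7 le_rfl).1, hs7]; rfl
    | succ n hn ih => rw [cJ_succ, J0_succ, ih, onmain hs n hn ih]
  funext n
  by_cases h : 8 ≤ n
  · exact onmain hs n h (hm n h)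
  · by_cases h' : n = 7
    · rw [h', hs7]; rfl
    · rw [(h7 n (by omega)).2 (by omega)]
      have : ∀ n < 7, true = s0 n := by decide
      exact this n (by omega)

def Steer {A : Type} (x : ℕ → A) (s : ℕ → Bool) : Prop :=
  ∀ b : Bool, {n | s n = b}.Infinite ∧ ∀ k, x (Nat.nth (fun n => s n = b) k) = x k

theorem main : ∃ (m : ℕ) (x : ℕ → Fin m), ∃! s : ℕ → Bool, s 0 = true ∧ Steer x s := by
  refine ⟨7, fun n => ⟨y n, y_lt n⟩, s0, ⟨rfl, fun b => ?_⟩, ?_⟩
  · have hinf : {n | s0 n = b}.Infinite := by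
      cases b
      · apply Set.infinite_of_injective_forall_mem (f := fun m => 15 + 4 * m + 1)
        · intro a b h; simp only at h; omega
        · intro m; exact s0_big m 1 (by omega)
      · apply Set.infinite_of_injective_forall_mem (f := fun m => 15 + 4 * m + 0)
        · intro a b h; simp only at h; omega
        · intro m; exact s0_big m 0 (by omega)
    refine ⟨hinf, fun k => Fin.ext ?_⟩
    have h1 := Nat.nth_mem_of_infinite hinf k
    have h2 := Nat.count_nth_of_infinite hinf k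
    cases b
    · have := (loc_s0 _).2 h1
      rwa [cJ, h2] at this
    · have := (loc_s0 _).1 h1
      rwa [cI, h2] at this
  · rintro s ⟨h0, hs⟩
    apply uniq _ h0 (hs false).1
    intro n
    constructor
    · intro hn
      have := congrArg Fin.val ((hs true).2 (cI s n))
      rwa [cI, Nat.nth_count (p := fun k => s k = true) hn] at this
    · intro hn
      have := congrArg Fin.val ((hs false).2 (cJ s n))
      rwa [cJ, Nat.nth_count (p := fun k => s k = false) hn] at this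

end Pool.Agent.H.MP_814ec7_co
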